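import Pool.Agent.N147.BN.Final

/-!
# MP_eed2ef_ag, Q1: the answer is negative

Let `s ≥ 2`, `r ≥ s + 1`, `r ≥ 2 s - 1`, `d ≥ 2 r` and `g > (d - r + 1 choose 2)`. Then there are curves of
genus `g` with a `g^r_d`, and every such curve has a `g^s_e` for all `e ≥ d - 2 r + 2 s`. The number
`d - 2 r + 2 s` is smaller than the bound `d - 2 r + 2 + s + ⌊(r - 1) / 2⌋` of Q1, and for all `e` between
these two numbers all the conditions of Q1 hold.

A smooth irreducible projective curve `C` over `ℂ` is given by its function field `K`, and a line bundle on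
`C` by its generic fibre `K` and its stalks, see `Pool/Agent/Helper395/CS/Defs.lean`; the genus is
`dim H¹(C, 𝒪_C)`, see `Pool/Agent/Helper395/BC/Defs.lean`.
-/

namespace Pool.Agent.Results.MP_eed2ef_ag.SmallDegree

open Pool.Agent.Helper395.CS (IsCurve Point LineBundle)
open Pool.Agent.Helper395.BC (genus H0)

/-- The curve `C` with function field `K` has a `g^r_d`: there is a line bundle `L` of degree `d` with
`h⁰(C, L) ≥ r + 1`. Here `H0 L` is the space of the `f ∈ K` which lie in the stalk of `L` at every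
closed point. -/
def HasLinearSeries (K : Type) [Field K] [Algebra ℂ K] (r d : ℤ) : Prop :=
  ∃ L : LineBundle K, L.degree = d ∧ r + 1 ≤ (Module.finrank ℂ (H0 L) : ℤ)

/-- The Brill-Noether number `ρ(g, r, d) = g - (r + 1) (g - d + r)`. -/
def rho (g r d : ℤ) : ℤ := g - (r + 1) * (g - d + r)

/-- `M^r_{g,d}` is contained in `M^s_{g,e}`: every curve of genus `g` with a `g^r_d` has a `g^s_e`. -/
def LocusLE (g : ℕ) (r d s e : ℤ) : Prop :=
  ∀ (K : Type) [Field K] [Algebra ℂ K], IsCurve K → genus K = g →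
    HasLinearSeries K r d → HasLinearSeries K s e

/-- `M^r_{g,d}` is not empty: there is a curve of genus `g` with a `g^r_d`. -/
def LocusNonempty (g : ℕ) (r d : ℤ) : Prop :=
  ∃ (K : Type) (_ : Field K) (_ : Algebra ℂ K), IsCurve K ∧ genus K = g ∧ HasLinearSeries K r d

/-- `M^r_{g,d}` is a Brill-Noether locus: `r ≥ 1`, `ρ(g, r, d) < 0`, and the locus is not empty. -/
def IsBNLocus (g : ℕ) (r d : ℤ) : Prop := 1 ≤ r ∧ rho g r d < 0 ∧ LocusNonempty g r d

/-- All the conditions of Q1 on `g, r, s, d, e`. -/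
def Admissible (g : ℕ) (r s d e : ℤ) : Prop :=
  d ≤ g - 1 ∧ e ≤ g - 1 ∧ s + 1 ≤ r ∧ 3 ≤ s + 1 ∧ IsBNLocus g r d ∧ IsBNLocus g s e ∧
    e < d - 2 * r + 2 + s + (r - 1) / 2

/-- The statement of Q1. -/
def Question1 : Prop :=
  ∃ g₀ : ℕ, ∀ g : ℕ, g₀ ≤ g → ∀ r s d e : ℤ, Admissible g r s d e → ¬ LocusLE g r d s e

theorem result :
    (∀ r s d g : ℕ, 2 ≤ s → s + 1 ≤ r → 2 * s ≤ r + 1 → 2 * r ≤ d → (d - r + 1).choose 2 < g →
      ((d : ℤ) - 2 * r + 2 * s < d - 2 * r + 2 + s + (r - 1) / 2) ∧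
      ∀ e : ℤ, d - 2 * r + 2 * s ≤ e → e < d - 2 * r + 2 + s + (r - 1) / 2 →
        Admissible g r s d e ∧ LocusLE g r d s e) ∧
    ¬ Question1 := by
  have nonempty : ∀ (g : ℕ), 7 ≤ g → ∀ (r : ℕ) (d : ℤ), 2 * r ≤ d → LocusNonempty g r d := by
    intro g h7g r d hd
    obtain ⟨K, _, _, hK, hgK, hL⟩ := Pool.Agent.N147.BN.exists_hyp g h7g
    refine ⟨K, _, _, hK, hgK, ?_⟩
    obtain ⟨L, hL1, hL2⟩ := hL r
    obtain ⟨M, hM1, hM2⟩ := Pool.Agent.N147.BN.add_points hK (by omega) L (d - 2 * r).toNat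
    refine ⟨M, ?_, ?_⟩
    · rw [hM1, hL1]
      omega
    · exact_mod_cast hL2.trans hM2
  have main : ∀ r s d g : ℕ, 2 ≤ s → s + 1 ≤ r → 2 * s ≤ r + 1 → 2 * r ≤ d →
      (d - r + 1).choose 2 < g →
      ((d : ℤ) - 2 * r + 2 * s < d - 2 * r + 2 + s + (r - 1) / 2) ∧
      ∀ e : ℤ, d - 2 * r + 2 * s ≤ e → e < d - 2 * r + 2 + s + (r - 1) / 2 →
        Admissible g r s d e ∧ LocusLE g r d s e := by
    intro r s d g hs hsr hsr' hd hg
    -- the numerical conditions
    obtain ⟨x, rfl⟩ : ∃ x, d = r + x := ⟨d - r, by omega⟩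
    have hx : r ≤ x := by omega
    have h1 : (r + x - r + 1).choose 2 = (x + 1) * x / 2 := by
      rw [Nat.add_sub_cancel_left, Nat.choose_two_right, Nat.add_sub_cancel]
    have h2 : 2 * ((x + 1) * x / 2) = (x + 1) * x :=
      Nat.mul_div_cancel' (by
        have := (Nat.even_mul_succ_self x).two_dvd
        rwa [mul_comm] at this)
    have h3 : 2 * x + 1 ≤ g := by
      rw [h1] at hg
      have h4 : 4 * x ≤ (x + 1) * x := by nlinarith
      omega
    have h7g : 7 ≤ g := by omega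
    refine ⟨by omega, fun e he1 he2 => ⟨?_, ?_⟩⟩
    · have h5 : (2 * x + 1 : ℤ) ≤ g := by exact_mod_cast h3
      have h6 : (r : ℤ) ≤ x := by exact_mod_cast hx
      have h7 : (s : ℤ) + 1 ≤ r := by exact_mod_cast hsr
      have h7' : (2 : ℤ) ≤ s := by exact_mod_cast hs
      have h8 : e ≤ x + 1 := by push_cast at he2; omega
      have h9 : (2 * r : ℤ) ≤ (r + x : ℕ) := by push_cast; linarith
      refine ⟨?_, ?_, h7, by linarith, ⟨by linarith, ?_, nonempty g h7g r _ h9⟩,
        ⟨by linarith, ?_, nonempty g h7g s e (by linarith)⟩, he2⟩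
      · push_cast; linarith
      · linarith
      · rw [rho]; push_cast; nlinarith
      · rw [rho]
        have h10 : (s : ℤ) + 1 ≤ g - e + s := by linarith
        have h11 : (3 : ℤ) * (g - e + s) ≤ (s + 1) * (g - e + s) := by nlinarith
        linarith
    · rintro K _ _ hK hgK ⟨L, hL1, hL2⟩
      obtain ⟨M, hM1, hM2⟩ := Pool.Agent.N147.BN.descend hK (by omega) (r := r) (d := r + x)
        hL1 (by exact_mod_cast hL2) (by rw [hgK]; exact hg) (r - s) (by omega)
      obtain ⟨N, hN1, hN2⟩ := Pool.Agent.N147.BN.add_points hK (by omega) M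
        (e - ((r + x : ℕ) - 2 * r + 2 * s)).toNat
      have hrs : ((r - s : ℕ) : ℤ) = r - s := by omega
      refine ⟨N, ?_, ?_⟩
      · rw [hN1, hM1, hL1, hrs]
        omega
      · have h12 : r - (r - s) = s := by omega
        rw [h12] at hM2
        exact_mod_cast hM2.trans hN2
  refine ⟨main, ?_⟩
  rintro ⟨g₀, h⟩
  obtain ⟨-, h2⟩ := main 3 2 6 (max g₀ 7) le_rfl (by norm_num) (by norm_num) (by norm_num) (by
    have h3 : (6 - 3 + 1).choose 2 = 6 := by decide
    have := le_max_right g₀ 7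
    omega)
  obtain ⟨h3, h4⟩ := h2 4 (by norm_num) (by norm_num)
  exact h (max g₀ 7) (le_max_left _ _) 3 2 6 4 h3 h4

end Pool.Agent.Results.MP_eed2ef_ag.SmallDegree
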